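import Pool.Agent.SKQ.Stmts

/-!
# SKQ, row ALG: the pointwise inequality
-/

set_option autoImplicit false

namespace Pool.Agent.SKQ.H25

open Metric Set Filter Topology MeasureTheory
open scoped ENNReal RealInnerProductSpace
open Helper22QC Pool.Agent.SKQ

/-- `M† M` is near `1` if `‖M‖ ≤ 1` and `det M` is near `1` -/
theorem spec {n : ℕ} (M : Mt n) (hM : ‖M‖ ≤ 1) (v : E n) :
    ‖v - (ContinuousLinearMap.adjoint M) (M v)‖ ≤ (1 - M.det ^ 2) * ‖v‖ := by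
  obtain ⟨T, hT⟩ : ∃ T : E n →ₗ[ℝ] E n, T = ((ContinuousLinearMap.adjoint M).comp M : E n →L[ℝ] E n) :=
    ⟨_, rfl⟩
  have hTa : ∀ x, T x = (ContinuousLinearMap.adjoint M) (M x) := by
    intro x
    rw [hT]
    rfl
  have hsym : T.IsSymmetric := by
    intro x y
    rw [hTa, hTa, ContinuousLinearMap.adjoint_inner_left, ContinuousLinearMap.adjoint_inner_right]
  have hn : Module.finrank ℝ (E n) = n := finrank_euclideanSpace_fin
  obtain ⟨b, hb⟩ : ∃ b, b = hsym.eigenvectorBasis hn := ⟨_, rfl⟩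
  obtain ⟨lam, hlamd⟩ : ∃ lam, lam = hsym.eigenvalues hn := ⟨_, rfl⟩
  have hTb : ∀ i, T (b i) = lam i • b i := by
    intro i
    rw [hb, hlamd]
    exact hsym.apply_eigenvectorBasis hn i
  have hlam : ∀ i, lam i = ‖M (b i)‖ ^ 2 := by
    intro i
    have h1 : ⟪T (b i), b i⟫ = lam i := by
      rw [hTb, real_inner_smul_left, real_inner_self_eq_norm_sq, b.norm_eq_one]
      ring
    rw [← h1, hTa, ContinuousLinearMap.adjoint_inner_left, real_inner_self_eq_norm_sq]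
  have hlam0 : ∀ i, 0 ≤ lam i := fun i => by rw [hlam]; positivity
  have hlam1 : ∀ i, lam i ≤ 1 := by
    intro i
    rw [hlam]
    have h1 : ‖M (b i)‖ ≤ 1 := by
      refine (M.le_opNorm _).trans ?_
      rw [b.norm_eq_one, mul_one]
      exact hM
    exact pow_le_one₀ (norm_nonneg _) h1
  have hprod : M.det ^ 2 = ∏ i, lam i := by
    have h1 := hsym.det_eq_prod_eigenvalues hn
    have h2 := ContinuousLinearMap.normDet_sq (𝕜 := ℝ) M
    have h3 : ((M : E n →ₗ[ℝ] E n)).normDet = |M.det| := (M : E n →ₗ[ℝ] E n).normDet_eq_abs_det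
    rw [hlamd]
    have h4 : LinearMap.det T = ((ContinuousLinearMap.adjoint M).comp M : E n →L[ℝ] E n).det := by
      rw [hT]
    rw [h4] at h1
    have h5 : (∏ i, ((hsym.eigenvalues hn i : ℝ) : ℝ)) =
        ((ContinuousLinearMap.adjoint M).comp M : E n →L[ℝ] E n).det := h1.symm
    rw [h5, ← h2]
    show M.det ^ 2 = ((M : E n →ₗ[ℝ] E n)).normDet ^ 2
    rw [h3, sq_abs]
  have hd1 : M.det ^ 2 ≤ 1 := by
    rw [hprod]
    exact Finset.prod_le_one (fun i _ => hlam0 i) (fun i _ => hlam1 i)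
  have hmin : ∀ i, M.det ^ 2 ≤ lam i := by
    intro i
    rw [hprod, ← Finset.mul_prod_erase Finset.univ lam (Finset.mem_univ i)]
    calc lam i * ∏ j ∈ Finset.univ.erase i, lam j ≤ lam i * 1 :=
          mul_le_mul_of_nonneg_left (Finset.prod_le_one (fun j _ => hlam0 j) (fun j _ => hlam1 j))
            (hlam0 i)
      _ = lam i := mul_one _
  have hco : ∀ i, ⟪b i, v - T v⟫ = (1 - lam i) * ⟪b i, v⟫ := by
    intro i
    rw [inner_sub_right, ← hsym (b i) v, hTb, real_inner_smul_left]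
    ring
  have hsq : ‖v - T v‖ ^ 2 ≤ ((1 - M.det ^ 2) * ‖v‖) ^ 2 := by
    rw [← b.sum_sq_norm_inner_right (v - T v), mul_pow, ← b.sum_sq_norm_inner_right v,
      Finset.mul_sum]
    refine Finset.sum_le_sum fun i _ => ?_
    rw [hco, norm_mul, mul_pow]
    refine mul_le_mul_of_nonneg_right ?_ (by positivity)
    rw [Real.norm_eq_abs, sq_abs]
    have h1 := hmin i
    have h2 := hlam1 i
    exact pow_le_pow_left₀ (by linarith) (by linarith) 2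
  rw [← hTa]
  exact (sq_le_sq₀ (norm_nonneg _) (mul_nonneg (by linarith) (norm_nonneg _))).1 hsq

/-- monotonicity of `x ↦ |x|^(n-2) x` -/
theorem mono {n : ℕ} (hn : 2 ≤ n) (x y : E n) :
    (2 ^ n)⁻¹ * ‖x - y‖ ^ n ≤ ⟪‖x‖ ^ (n - 2) • x - ‖y‖ ^ (n - 2) • y, x - y⟫ := by
  obtain ⟨k, rfl⟩ : ∃ k, n = k + 2 := ⟨n - 2, by omega⟩
  rw [Nat.add_sub_cancel]
  obtain ⟨a, ha⟩ : ∃ a, a = ‖x‖ ^ k := ⟨_, rfl⟩
  obtain ⟨b, hb⟩ : ∃ b, b = ‖y‖ ^ k := ⟨_, rfl⟩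
  rw [← ha, ← hb]
  have ha0 : 0 ≤ a := by rw [ha]; positivity
  have hb0 : 0 ≤ b := by rw [hb]; positivity
  have h1 : ⟪a • x - b • y, x - y⟫ = (a + b) / 2 * ‖x - y‖ ^ 2 +
      (a - b) * (‖x‖ ^ 2 - ‖y‖ ^ 2) / 2 := by
    rw [norm_sub_sq_real, inner_sub_left, inner_sub_right, inner_sub_right, real_inner_smul_left,
      real_inner_smul_left, real_inner_smul_left, real_inner_smul_left,
      real_inner_self_eq_norm_sq, real_inner_self_eq_norm_sq, real_inner_comm x y]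
    ring
  have h2 : 0 ≤ (a - b) * (‖x‖ ^ 2 - ‖y‖ ^ 2) := by
    rcases le_total ‖x‖ ‖y‖ with h | h
    · have h3 : a ≤ b := by rw [ha, hb]; exact pow_le_pow_left₀ (norm_nonneg _) h k
      have h4 : ‖x‖ ^ 2 ≤ ‖y‖ ^ 2 := pow_le_pow_left₀ (norm_nonneg _) h 2
      nlinarith
    · have h3 : b ≤ a := by rw [ha, hb]; exact pow_le_pow_left₀ (norm_nonneg _) h k
      have h4 : ‖y‖ ^ 2 ≤ ‖x‖ ^ 2 := pow_le_pow_left₀ (norm_nonneg _) h 2
      nlinarith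
  have h3 : ‖x - y‖ ^ k ≤ 2 ^ k * (a + b) := by
    have h4 := norm_sub_le x y
    rcases le_total ‖x‖ ‖y‖ with h | h
    · calc ‖x - y‖ ^ k ≤ (2 * ‖y‖) ^ k := pow_le_pow_left₀ (norm_nonneg _) (by linarith) k
        _ = 2 ^ k * b := by rw [mul_pow, hb]
        _ ≤ 2 ^ k * (a + b) := mul_le_mul_of_nonneg_left (by linarith) (by positivity)
    · calc ‖x - y‖ ^ k ≤ (2 * ‖x‖) ^ k := pow_le_pow_left₀ (norm_nonneg _) (by linarith) k
        _ = 2 ^ k * a := by rw [mul_pow, ha]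
        _ ≤ 2 ^ k * (a + b) := mul_le_mul_of_nonneg_left (by linarith) (by positivity)
  have h5 : (2 ^ (k + 2) : ℝ)⁻¹ * ‖x - y‖ ^ (k + 2) ≤ (a + b) / 4 * ‖x - y‖ ^ 2 := by
    have h6 : (2 ^ k : ℝ)⁻¹ * ‖x - y‖ ^ k ≤ a + b := by
      rw [inv_mul_le_iff₀ (by positivity)]
      exact h3
    calc (2 ^ (k + 2) : ℝ)⁻¹ * ‖x - y‖ ^ (k + 2)
        = ((2 ^ k : ℝ)⁻¹ * ‖x - y‖ ^ k) * (‖x - y‖ ^ 2 / 4) := by
          rw [pow_add, pow_add, mul_inv]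
          ring
      _ ≤ (a + b) * (‖x - y‖ ^ 2 / 4) := mul_le_mul_of_nonneg_right h6 (by positivity)
      _ = (a + b) / 4 * ‖x - y‖ ^ 2 := by ring
  rw [h1]
  have h7 : 0 ≤ (a + b) * ‖x - y‖ ^ 2 := by positivity
  linarith

/-- the normalised estimate -/
theorem core {n : ℕ} (hn : 2 ≤ n) {C : ℝ}
    (hadj : ∀ (M : Mt n) (v : E n), M (adjV M v) = M.det • v)
    (hbd : ∀ M : Mt n, ‖adjV M‖ ≤ C * ‖M‖ ^ (n - 1)) (hdet : ∀ M : Mt n, |M.det| ≤ ‖M‖ ^ n)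
    {N : Mt n} (hN : ‖N‖ = 1) {w : E n} (hw : ‖w‖ = 1) {ε : ℝ} (hε : 0 < ε) (hε4 : ε ≤ 1 / 4)
    (h : 1 ≤ (1 + ε) * N.det) :
    ‖adjV N w - ‖(ContinuousLinearMap.adjoint N) w‖ ^ (n - 2) • (ContinuousLinearMap.adjoint N) w‖ ≤
      (2 * C + 1 + 2 * n) * ε := by
  obtain ⟨d, hd⟩ : ∃ d, d = N.det := ⟨_, rfl⟩
  obtain ⟨a, ha⟩ : ∃ a, a = adjV N w := ⟨_, rfl⟩
  obtain ⟨u, hu⟩ : ∃ u, u = (ContinuousLinearMap.adjoint N) w := ⟨_, rfl⟩
  rw [← hd] at h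
  rw [← ha, ← hu]
  have hd1 : d ≤ 1 := by
    have h1 := hdet N
    rw [hN, one_pow, ← hd] at h1
    exact (le_abs_self d).trans h1
  have hd2 : 1 - ε ≤ d := by nlinarith
  have hd0 : 0 < d := by linarith
  have hNa : N a = d • w := by rw [ha, hd, hadj]
  have ha1 : ‖a‖ ≤ C := by
    rw [ha]
    refine ((adjV N).le_opNorm w).trans ?_
    rw [hw, mul_one]
    refine (hbd N).trans ?_
    rw [hN, one_pow, mul_one]
  have ha2 : d ≤ ‖a‖ := by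
    have h1 := N.le_opNorm a
    rw [hN, one_mul, hNa, norm_smul, hw, mul_one, Real.norm_eq_abs, abs_of_pos hd0] at h1
    exact h1
  have hu1 : ‖u‖ ≤ 1 := by
    rw [hu]
    refine ((ContinuousLinearMap.adjoint N).le_opNorm w).trans ?_
    rw [LinearIsometryEquiv.norm_map, hN, hw, one_mul]
  have hsp := spec N hN.le a
  rw [hNa, map_smul, ← hu, ← hd] at hsp
  have hδ : 1 - d ^ 2 ≤ 2 * ε := by nlinarith
  have e1 : ‖a - d • u‖ ≤ 2 * ε * ‖a‖ :=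
    hsp.trans (mul_le_mul_of_nonneg_right hδ (norm_nonneg _))
  have e1' : ‖a - d • u‖ ≤ 2 * ε * C := e1.trans (mul_le_mul_of_nonneg_left ha1 (by linarith))
  have e2 : ‖d • u - u‖ ≤ ε := by
    have h1 : d • u - u = (d - 1) • u := by rw [sub_smul, one_smul]
    rw [h1, norm_smul, Real.norm_eq_abs, abs_of_nonpos (by linarith)]
    calc -(d - 1) * ‖u‖ ≤ ε * 1 := mul_le_mul (by linarith) hu1 (norm_nonneg _) hε.le
      _ = ε := mul_one _
  have hu2 : 1 - 2 * ε ≤ ‖u‖ := by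
    have h1 : ‖a‖ ≤ ‖a - d • u‖ + ‖d • u‖ := by
      have := norm_add_le (a - d • u) (d • u)
      rwa [sub_add_cancel] at this
    rw [norm_smul, Real.norm_eq_abs, abs_of_pos hd0] at h1
    have h2 : (1 - 2 * ε) * ‖a‖ ≤ d * ‖u‖ := by linarith
    have h3 : (1 - 2 * ε) * d ≤ (1 - 2 * ε) * ‖a‖ :=
      mul_le_mul_of_nonneg_left ha2 (by linarith)
    have h4 : (1 - 2 * ε) * d ≤ ‖u‖ * d := by linarith
    exact le_of_mul_le_mul_right h4 hd0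
  have e3 : ‖u - ‖u‖ ^ (n - 2) • u‖ ≤ 2 * n * ε := by
    have h1 : u - ‖u‖ ^ (n - 2) • u = (1 - ‖u‖ ^ (n - 2)) • u := by rw [sub_smul, one_smul]
    have h2 : ‖u‖ ^ (n - 2) ≤ 1 := pow_le_one₀ (norm_nonneg _) hu1
    rw [h1, norm_smul, Real.norm_eq_abs, abs_of_nonneg (by linarith)]
    have h3 : (1 - 2 * ε) ^ (n - 2) ≤ ‖u‖ ^ (n - 2) := pow_le_pow_left₀ (by linarith) hu2 _
    have h4 := one_add_mul_le_pow (show (-2 : ℝ) ≤ -(2 * ε) by linarith) (n - 2)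
    have h5 : ((n - 2 : ℕ) : ℝ) ≤ n := by exact_mod_cast Nat.sub_le n 2
    have h6 : 1 + ((n - 2 : ℕ) : ℝ) * -(2 * ε) ≤ (1 - 2 * ε) ^ (n - 2) := by
      have e : (1 : ℝ) + -(2 * ε) = 1 - 2 * ε := by ring
      rw [e] at h4
      exact h4
    have h7 : 1 - ‖u‖ ^ (n - 2) ≤ 2 * n * ε := by
      have h8 : ((n - 2 : ℕ) : ℝ) * (2 * ε) ≤ n * (2 * ε) :=
        mul_le_mul_of_nonneg_right h5 (by linarith)
      linarith
    calc (1 - ‖u‖ ^ (n - 2)) * ‖u‖ ≤ (2 * n * ε) * 1 :=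
          mul_le_mul h7 hu1 (norm_nonneg _) (by positivity)
      _ = 2 * n * ε := mul_one _
  have h8 : a - ‖u‖ ^ (n - 2) • u = (a - d • u) + (d • u - u) + (u - ‖u‖ ^ (n - 2) • u) := by abel
  rw [h8]
  refine (norm_add₃_le).trans ?_
  linarith

theorem adj_smul {n : ℕ} (hadj : ∀ (M : Mt n) (v : E n), M (adjV M v) = M.det • v)
    {N : Mt n} {m : ℝ} (hm : 0 < m) (hN : 0 < N.det) (hn : 1 ≤ n) (v : E n) :
    (hinj : ∀ x y : E n, N x = N y → x = y) → adjV (m • N) v = m ^ (n - 1) • adjV N v := by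
  intro hinj
  apply hinj
  have h1 := hadj (m • N) v
  have h2 := hadj N v
  have h3 : (m • N).det = m ^ n * N.det := by
    have h4 := LinearMap.det_smul m (N : E n →ₗ[ℝ] E n)
    rw [finrank_euclideanSpace_fin] at h4
    exact h4
  rw [h3, _root_.smul_apply] at h1
  have h5 : m • N (adjV (m • N) v) = m • N (m ^ (n - 1) • adjV N v) := by
    have h6 : m ^ n = m * m ^ (n - 1) := by
      rw [← pow_succ']
      congr 1
      omega
    rw [h1, map_smul, h2, smul_smul, smul_smul, h6]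
  exact smul_right_injective _ hm.ne' h5

theorem lemQ {n : ℕ} (hn : 2 ≤ n) {C : ℝ} (hC : 0 < C)
    (hadj : ∀ (M : Mt n) (v : E n), M (adjV M v) = M.det • v ∧ adjV M (M v) = M.det • v)
    (hbd : ∀ M : Mt n, ‖adjV M‖ ≤ C * ‖M‖ ^ (n - 1)) (hdet : ∀ M : Mt n, |M.det| ≤ ‖M‖ ^ n)
    {M : Mt n} {z : E n} (hz : z ≠ 0) {ε : ℝ} (hε : 0 < ε) (hε4 : ε ≤ 1 / 4)
    (h : ‖M‖ ^ n ≤ (1 + ε) * M.det) :
    ‖adjV M ((‖z‖ ^ n)⁻¹ • z) - ‖(‖z‖ ^ 2)⁻¹ • (ContinuousLinearMap.adjoint M) z‖ ^ (n - 2) •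
      ((‖z‖ ^ 2)⁻¹ • (ContinuousLinearMap.adjoint M) z)‖ ≤
      (2 * C + 1 + 2 * n) * ε * (‖M‖ / ‖z‖) ^ (n - 1) := by
  have hz0 : 0 < ‖z‖ := norm_pos_iff.2 hz
  rcases eq_or_ne M 0 with rfl | hM
  · have h1 : adjV (0 : Mt n) = 0 := by
      have h2 := hbd 0
      rw [norm_zero, zero_pow (by omega), mul_zero] at h2
      exact norm_le_zero_iff.1 h2
    rw [h1, map_zero]
    simp only [_root_.zero_apply, smul_zero, sub_self, norm_zero]
    positivity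
  · have hm : 0 < ‖M‖ := norm_pos_iff.2 hM
    obtain ⟨m, hmd⟩ : ∃ m, m = ‖M‖ := ⟨_, rfl⟩
    obtain ⟨r, hr⟩ : ∃ r, r = ‖z‖ := ⟨_, rfl⟩
    obtain ⟨N, hNd⟩ : ∃ N : Mt n, N = m⁻¹ • M := ⟨_, rfl⟩
    obtain ⟨w, hwd⟩ : ∃ w : E n, w = r⁻¹ • z := ⟨_, rfl⟩
    rw [← hmd] at hm
    rw [← hr] at hz0
    have hMN : M = m • N := by rw [hNd, smul_smul, mul_inv_cancel₀ hm.ne', one_smul]
    have hzw : z = r • w := by rw [hwd, smul_smul, mul_inv_cancel₀ hz0.ne', one_smul]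
    have hN1 : ‖N‖ = 1 := by
      rw [hNd, norm_smul, norm_inv, Real.norm_eq_abs, abs_of_pos hm, ← hmd, inv_mul_cancel₀ hm.ne']
    have hw1 : ‖w‖ = 1 := by
      rw [hwd, norm_smul, norm_inv, Real.norm_eq_abs, abs_of_pos hz0, ← hr, inv_mul_cancel₀ hz0.ne']
    have hdM : M.det = m ^ n * N.det := by
      have h4 := LinearMap.det_smul m (N : E n →ₗ[ℝ] E n)
      rw [finrank_euclideanSpace_fin] at h4
      rw [hMN]
      exact h4
    have hN2 : 1 ≤ (1 + ε) * N.det := by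
      rw [← hmd, hdM] at h
      have h5 : m ^ n * 1 ≤ m ^ n * ((1 + ε) * N.det) := by linarith
      exact le_of_mul_le_mul_left h5 (by positivity)
    have hNdet : 0 < N.det := by
      by_contra h6
      push Not at h6
      nlinarith
    have hinj : ∀ x y : E n, N x = N y → x = y := by
      intro x y hxy
      have h7 := (hadj N x).2
      have h8 := (hadj N y).2
      rw [hxy, h8] at h7
      exact (smul_right_injective _ hNdet.ne' h7).symm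
    have hcore := core hn (fun M v => (hadj M v).1) hbd hdet hN1 hw1 hε hε4 hN2
    obtain ⟨u, hu⟩ : ∃ u, u = (ContinuousLinearMap.adjoint N) w := ⟨_, rfl⟩
    rw [← hu] at hcore
    have hxi : (r ^ 2)⁻¹ • (ContinuousLinearMap.adjoint M) z = (m / r) • u := by
      have hadjM : (ContinuousLinearMap.adjoint (m • N) : Mt n) = m • ContinuousLinearMap.adjoint N := by
        rw [map_smulₛₗ, conj_trivial]
      rw [hMN, hzw, hadjM, _root_.smul_apply, map_smul, ← hu, smul_smul, smul_smul]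
      congr 1
      field_simp
    have had : adjV M ((r ^ n)⁻¹ • z) = (m / r) ^ (n - 1) • adjV N w := by
      rw [hzw, smul_smul, map_smul, hMN,
        adj_smul (fun M v => (hadj M v).1) hm hNdet (by omega) w hinj, smul_smul]
      congr 1
      obtain ⟨k, rfl⟩ : ∃ k, n = k + 1 := ⟨n - 1, by omega⟩
      rw [Nat.add_sub_cancel, div_pow]
      field_simp
      ring
    have hs0 : 0 < m / r := by positivity
    rw [← hr, ← hmd, hxi, had, norm_smul, Real.norm_eq_abs, abs_of_pos hs0, mul_pow]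
    have e1 : ((m / r) ^ (n - 2) * ‖u‖ ^ (n - 2)) • ((m / r) • u) =
        (m / r) ^ (n - 1) • (‖u‖ ^ (n - 2) • u) := by
      rw [smul_smul, smul_smul]
      congr 1
      obtain ⟨k, rfl⟩ : ∃ k, n = k + 2 := ⟨n - 2, by omega⟩
      have e2 : k + 2 - 1 = k + 1 := by omega
      rw [Nat.add_sub_cancel, e2]
      ring
    rw [e1, ← smul_sub, norm_smul, Real.norm_eq_abs, abs_of_pos (by positivity), mul_comm]
    exact mul_le_mul_of_nonneg_right hcore (by positivity)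

theorem alg (adj : ADJStmt) : ALGStmt := by
  intro n hn
  obtain ⟨C, hC, hadj, -, -, hbd, hdet, -⟩ := adj n (by omega)
  refine ⟨(2 ^ n)⁻¹, by positivity, ?_⟩
  intro η hη
  have hD : 0 < 2 * C + 1 + 2 * (n : ℝ) := by positivity
  refine ⟨min (1 / 4) (η / 2 / (2 * C + 1 + 2 * n)), by positivity,
    (min_le_left _ _).trans (by norm_num), ?_⟩
  intro M z ζ hM hz
  obtain ⟨ε, hε⟩ : ∃ ε, ε = min (1 / 4) (η / 2 / (2 * C + 1 + 2 * (n : ℝ))) := ⟨_, rfl⟩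
  rw [← hε] at hM
  have hε0 : 0 < ε := by rw [hε]; positivity
  have hε4 : ε ≤ 1 / 4 := by rw [hε]; exact min_le_left _ _
  have hε5 : (2 * C + 1 + 2 * n) * ε ≤ η / 2 := by
    rw [mul_comm, ← le_div_iff₀ hD, hε]
    exact min_le_right _ _
  have hQ := lemQ hn hC hadj hbd hdet hz hε0 hε4 hM
  have hz0 : 0 < ‖z‖ := norm_pos_iff.2 hz
  obtain ⟨ξ, hξ⟩ : ∃ ξ, ξ = (‖z‖ ^ 2)⁻¹ • (ContinuousLinearMap.adjoint M) z := ⟨_, rfl⟩
  obtain ⟨s, hs⟩ : ∃ s, s = ‖M‖ / ‖z‖ := ⟨_, rfl⟩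
  obtain ⟨a, ha⟩ : ∃ a, a = adjV M ((‖z‖ ^ n)⁻¹ • z) := ⟨_, rfl⟩
  rw [← hξ, ← hs, ← ha] at hQ ⊢
  have hs0 : 0 ≤ s := by rw [hs]; positivity
  have hξs : ‖ξ‖ ≤ s := by
    rw [hξ, hs, norm_smul, norm_inv, norm_pow, norm_norm]
    have h1 := (ContinuousLinearMap.adjoint M).le_opNorm z
    rw [LinearIsometryEquiv.norm_map] at h1
    rw [inv_mul_le_iff₀ (by positivity)]
    refine h1.trans (le_of_eq ?_)
    field_simp
  have hmono := mono hn ξ ζ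
  have h1 : ⟪a - ‖ζ‖ ^ (n - 2) • ζ, ξ - ζ⟫ = ⟪‖ξ‖ ^ (n - 2) • ξ - ‖ζ‖ ^ (n - 2) • ζ, ξ - ζ⟫ +
      ⟪a - ‖ξ‖ ^ (n - 2) • ξ, ξ - ζ⟫ := by
    rw [← inner_add_left]
    congr 1
    abel
  have h2 : -(η / 2 * s ^ (n - 1) * (s + ‖ζ‖)) ≤ ⟪a - ‖ξ‖ ^ (n - 2) • ξ, ξ - ζ⟫ := by
    have h3 := abs_real_inner_le_norm (a - ‖ξ‖ ^ (n - 2) • ξ) (ξ - ζ)
    have h4 : ‖a - ‖ξ‖ ^ (n - 2) • ξ‖ * ‖ξ - ζ‖ ≤ (η / 2 * s ^ (n - 1)) * (s + ‖ζ‖) := by
      refine mul_le_mul (hQ.trans (mul_le_mul_of_nonneg_right hε5 (by positivity))) ?_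
        (norm_nonneg _) (by positivity)
      exact (norm_sub_le _ _).trans (by linarith)
    have h5 := neg_abs_le ⟪a - ‖ξ‖ ^ (n - 2) • ξ, ξ - ζ⟫
    linarith
  have h3 : s ^ (n - 1) * (s + ‖ζ‖) ≤ 2 * (s ^ n + ‖ζ‖ ^ n) := by
    obtain ⟨k, rfl⟩ : ∃ k, n = k + 1 := ⟨n - 1, by omega⟩
    rw [Nat.add_sub_cancel]
    have h4 : s ^ k * ‖ζ‖ ≤ s ^ (k + 1) + ‖ζ‖ ^ (k + 1) := by
      rcases le_total s ‖ζ‖ with h | h
      · calc s ^ k * ‖ζ‖ ≤ ‖ζ‖ ^ k * ‖ζ‖ :=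
              mul_le_mul_of_nonneg_right (pow_le_pow_left₀ hs0 h k) (norm_nonneg _)
          _ = ‖ζ‖ ^ (k + 1) := by rw [pow_succ]
          _ ≤ s ^ (k + 1) + ‖ζ‖ ^ (k + 1) := by
            have : 0 ≤ s ^ (k + 1) := by positivity
            linarith
      · calc s ^ k * ‖ζ‖ ≤ s ^ k * s := mul_le_mul_of_nonneg_left h (by positivity)
          _ = s ^ (k + 1) := by rw [pow_succ]
          _ ≤ s ^ (k + 1) + ‖ζ‖ ^ (k + 1) := by
            have : 0 ≤ ‖ζ‖ ^ (k + 1) := by positivity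
            linarith
    have h5 : s ^ k * (s + ‖ζ‖) = s ^ (k + 1) + s ^ k * ‖ζ‖ := by rw [pow_succ]; ring
    have h6 : 0 ≤ ‖ζ‖ ^ (k + 1) := by positivity
    rw [h5]
    linarith
  have h4 : η / 2 * s ^ (n - 1) * (s + ‖ζ‖) ≤ η * (s ^ n + ‖ζ‖ ^ n) := by
    have h5 := mul_le_mul_of_nonneg_left h3 (show 0 ≤ η / 2 by positivity)
    calc η / 2 * s ^ (n - 1) * (s + ‖ζ‖) = η / 2 * (s ^ (n - 1) * (s + ‖ζ‖)) := by ring
      _ ≤ η / 2 * (2 * (s ^ n + ‖ζ‖ ^ n)) := h5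
      _ = η * (s ^ n + ‖ζ‖ ^ n) := by ring
  show _ ≤ ⟪a - ‖ζ‖ ^ (n - 2) • ζ, ξ - ζ⟫ + _
  rw [h1]
  linarith

end Pool.Agent.SKQ.H25
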