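import Pool.Agent.SKQ.Kit
import Mathlib

/-!
# GEO: chains in an annulus
-/

set_option autoImplicit false

namespace Pool.Agent.SKQ.H25

open Metric Set Filter Topology MeasureTheory
open Helper22QC

theorem geo_exists_orth {n : ℕ} (hn : 2 ≤ n) (u : E n) : ∃ w : E n, ‖w‖ = 1 ∧ inner ℝ u w = 0 := by
  have h1 : (Submodule.span ℝ {u})ᗮ ≠ ⊥ := by
    intro h
    have h2 : Submodule.span ℝ {u} = ⊤ := by
      rwa [Submodule.orthogonal_eq_bot_iff] at h
    have h3 : Module.finrank ℝ (Submodule.span ℝ {u} : Submodule ℝ (E n)) ≤ 1 := by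
      have := finrank_span_le_card (R := ℝ) (M := E n) ({u} : Set (E n))
      simpa using this
    rw [h2, finrank_top] at h3
    have h4 : Module.finrank ℝ (E n) = n := by simp
    omega
  obtain ⟨v, hv, hv0⟩ := Submodule.exists_mem_ne_zero_of_ne_bot h1
  refine ⟨(‖v‖)⁻¹ • v, ?_, ?_⟩
  · rw [norm_smul, norm_inv, norm_norm, inv_mul_cancel₀ (norm_ne_zero_iff.2 hv0)]
  · rw [inner_smul_right]
    rw [Submodule.mem_orthogonal] at hv
    rw [hv u (Submodule.mem_span_singleton_self u), mul_zero]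

theorem geo_decomp {n : ℕ} (hn : 2 ≤ n) (u u' : E n) (hu : ‖u‖ = 1) (hu' : ‖u'‖ = 1) :
    ∃ (w : E n) (θ : ℝ), ‖w‖ = 1 ∧ inner ℝ u w = 0 ∧ 0 ≤ θ ∧ θ ≤ Real.pi ∧
      u' = Real.cos θ • u + Real.sin θ • w := by
  set t : ℝ := inner ℝ u u' with ht
  have ht1 : |t| ≤ 1 := by
    have := abs_real_inner_le_norm u u'
    rwa [hu, hu', one_mul] at this
  have hcos : Real.cos (Real.arccos t) = t :=
    Real.cos_arccos (abs_le.1 ht1).1 (abs_le.1 ht1).2
  have hsin : Real.sin (Real.arccos t) = √(1 - t ^ 2) := Real.sin_arccos t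
  set v : E n := u' - t • u with hv
  have hvv : ‖v‖ ^ 2 = 1 - t ^ 2 := by
    rw [hv, norm_sub_sq_real, norm_smul, hu, hu', inner_smul_right, real_inner_comm, ← ht,
      Real.norm_eq_abs]
    rw [mul_one, sq_abs]
    ring
  have hvn : ‖v‖ = √(1 - t ^ 2) := by
    rw [← hvv, Real.sqrt_sq (norm_nonneg _)]
  by_cases h0 : v = 0
  · obtain ⟨w, hw, hw'⟩ := geo_exists_orth hn u
    refine ⟨w, Real.arccos t, hw, hw', Real.arccos_nonneg _, Real.arccos_le_pi _, ?_⟩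
    rw [hcos, hsin, ← hvn, h0, norm_zero, zero_smul, add_zero]
    rw [hv, sub_eq_zero] at h0
    exact h0
  · refine ⟨(‖v‖)⁻¹ • v, Real.arccos t, ?_, ?_, Real.arccos_nonneg _, Real.arccos_le_pi _, ?_⟩
    · rw [norm_smul, norm_inv, norm_norm, inv_mul_cancel₀ (norm_ne_zero_iff.2 h0)]
    · rw [inner_smul_right, hv, inner_sub_right, inner_smul_right, ← ht,
        real_inner_self_eq_norm_sq, hu]
      ring
    · rw [hcos, hsin, ← hvn, smul_smul, mul_inv_cancel₀ (norm_ne_zero_iff.2 h0), one_smul, hv]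
      abel

/-- The path. -/
theorem geo_path {n : ℕ} (hn : 2 ≤ n) (a b : ℝ) (ha : 0 < a) (p p' : E n) (hp : a ≤ ‖p‖)
    (hp' : a ≤ ‖p'‖) (hpb : ‖p‖ ≤ b) (hpb' : ‖p'‖ ≤ b) : ∃ γ : ℝ → E n, γ 0 = p ∧ γ 1 = p' ∧
      (∀ s, 0 ≤ s → s ≤ 1 → a ≤ ‖γ s‖ ∧ ‖γ s‖ ≤ b) ∧
      ∀ s t, 0 ≤ s → s ≤ 1 → 0 ≤ t → t ≤ 1 → ‖γ s - γ t‖ ≤ 9 * b * |s - t| := by
  have h0 : 0 < ‖p‖ := lt_of_lt_of_le ha hp
  have h0' : 0 < ‖p'‖ := lt_of_lt_of_le ha hp'
  have hb : 0 < b := lt_of_lt_of_le h0 hpb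
  have hu : ‖(‖p‖)⁻¹ • p‖ = 1 := by
    rw [norm_smul, norm_inv, norm_norm, inv_mul_cancel₀ h0.ne']
  have hu' : ‖(‖p'‖)⁻¹ • p'‖ = 1 := by
    rw [norm_smul, norm_inv, norm_norm, inv_mul_cancel₀ h0'.ne']
  obtain ⟨w, θ, hw, huw, hθ, hθ', hd⟩ := geo_decomp hn _ _ hu hu'
  obtain ⟨u, hudef⟩ : ∃ u : E n, u = (‖p‖)⁻¹ • p := ⟨_, rfl⟩
  rw [← hudef] at hu huw hd
  have hnorm : ∀ x : ℝ, ‖Real.cos x • u + Real.sin x • w‖ = 1 := by
    intro x
    have h1 : ‖Real.cos x • u + Real.sin x • w‖ ^ 2 = 1 := by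
      rw [norm_add_sq_real, norm_smul, norm_smul, inner_smul_left, inner_smul_right, huw, hu, hw,
        Real.norm_eq_abs, Real.norm_eq_abs]
      rw [mul_one, mul_one, sq_abs, sq_abs]
      have := Real.cos_sq_add_sin_sq x
      simp only [mul_zero, add_zero]
      exact this
    have h2 : (0 : ℝ) ≤ ‖Real.cos x • u + Real.sin x • w‖ := norm_nonneg _
    nlinarith
  have hρ : ∀ s, 0 ≤ s → s ≤ 1 → a ≤ ‖p‖ + s * (‖p'‖ - ‖p‖) ∧ ‖p‖ + s * (‖p'‖ - ‖p‖) ≤ b := by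
    intro s hs hs'
    constructor
    · nlinarith
    · nlinarith
  refine ⟨fun s => (‖p‖ + s * (‖p'‖ - ‖p‖)) • (Real.cos (θ * s) • u + Real.sin (θ * s) • w),
    ?_, ?_, ?_, ?_⟩
  · simp only [zero_mul, add_zero, mul_zero, Real.cos_zero, Real.sin_zero, zero_smul, one_smul]
    rw [hudef, smul_smul, mul_inv_cancel₀ h0.ne', one_smul]
  · simp only [one_mul, mul_one]
    rw [← hd, smul_smul]
    have : (‖p‖ + (‖p'‖ - ‖p‖)) * ‖p'‖⁻¹ = 1 := by
      rw [add_sub_cancel, mul_inv_cancel₀ h0'.ne']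
    rw [this, one_smul]
  · intro s hs hs'
    simp only
    rw [norm_smul, hnorm, mul_one, Real.norm_eq_abs]
    have := hρ s hs hs'
    rw [abs_of_pos (lt_of_lt_of_le ha this.1)]
    exact this
  · intro s t hs hs' ht ht'
    simp only
    have h1 : (‖p‖ + s * (‖p'‖ - ‖p‖)) • (Real.cos (θ * s) • u + Real.sin (θ * s) • w) -
        (‖p‖ + t * (‖p'‖ - ‖p‖)) • (Real.cos (θ * t) • u + Real.sin (θ * t) • w) =
        ((s - t) * (‖p'‖ - ‖p‖)) • (Real.cos (θ * s) • u + Real.sin (θ * s) • w) +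
        (‖p‖ + t * (‖p'‖ - ‖p‖)) • ((Real.cos (θ * s) - Real.cos (θ * t)) • u +
          (Real.sin (θ * s) - Real.sin (θ * t)) • w) := by
      module
    rw [h1]
    have h2 : ‖((s - t) * (‖p'‖ - ‖p‖)) • (Real.cos (θ * s) • u + Real.sin (θ * s) • w)‖ ≤
        |s - t| * b := by
      rw [norm_smul, hnorm, mul_one, Real.norm_eq_abs, abs_mul]
      refine mul_le_mul_of_nonneg_left ?_ (abs_nonneg _)
      rw [abs_le]
      constructor
      · linarith
      · linarith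
    have h3 : ‖(Real.cos (θ * s) - Real.cos (θ * t)) • u +
          (Real.sin (θ * s) - Real.sin (θ * t)) • w‖ ≤ 8 * |s - t| := by
      refine (norm_add_le _ _).trans ?_
      rw [norm_smul, norm_smul, hu, hw, mul_one, mul_one, Real.norm_eq_abs, Real.norm_eq_abs]
      have h4 := Real.abs_cos_sub_cos_le (θ * s) (θ * t)
      have h5 := Real.abs_sin_sub_sin_le (θ * s) (θ * t)
      have h6 : |θ * s - θ * t| = θ * |s - t| := by
        rw [← mul_sub, abs_mul, abs_of_nonneg hθ]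
      rw [h6] at h4 h5
      have h7 : θ * |s - t| ≤ 4 * |s - t| :=
        mul_le_mul_of_nonneg_right (hθ'.trans Real.pi_le_four) (abs_nonneg _)
      linarith
    have h8 : ‖(‖p‖ + t * (‖p'‖ - ‖p‖)) • ((Real.cos (θ * s) - Real.cos (θ * t)) • u +
          (Real.sin (θ * s) - Real.sin (θ * t)) • w)‖ ≤ b * (8 * |s - t|) := by
      rw [norm_smul, Real.norm_eq_abs]
      have := hρ t ht ht'
      rw [abs_of_pos (lt_of_lt_of_le ha this.1)]
      exact mul_le_mul this.2 h3 (norm_nonneg _) hb.le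
    refine (norm_add_le _ _).trans ((add_le_add h2 h8).trans (le_of_eq ?_))
    ring

theorem geo_sup {n : ℕ} (i₀ : Fin n) (v : E n) (h : ℝ) (hv : ∀ i, |v i| ≤ 2 * h) (h0 : h ≤ |v i₀|) :
    ∃ δ : ℝ, h ≤ δ ∧ δ ≤ 2 * h ∧ (∀ i, |v i| ≤ δ) ∧ ∃ i, |v i| = δ := by
  obtain ⟨i, -, hi⟩ := Finset.exists_max_image (Finset.univ : Finset (Fin n)) (fun i => |v i|)
    ⟨i₀, Finset.mem_univ _⟩
  exact ⟨|v i|, h0.trans (hi i₀ (Finset.mem_univ _)), hv i, fun j => hi j (Finset.mem_univ _), i, rfl⟩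

theorem geo : GEOStmt := by
  intro n l₁ l₂ hn hl₁ hl₂
  set M : ℕ := ⌈18 * l₁ * l₂⌉₊ + 1 with hM
  refine ⟨2 * M, ?_⟩
  intro c a b h hh hha hab hbl hal p hp p' hp'
  have hn0 : (1 : ℝ) ≤ √n := by
    rw [Real.one_le_sqrt]
    exact_mod_cast (by omega : 1 ≤ n)
  have ha8 : 8 * h ≤ a := by nlinarith
  have ha : 0 < a := by linarith
  have hb : 0 < b := by linarith
  have hM0 : (0 : ℝ) < M := by
    rw [hM]; positivity
  have hMb : 18 * b ≤ M * h := by
    have h1 : 18 * l₁ * l₂ ≤ M := by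
      rw [hM]
      push_cast
      have := Nat.le_ceil (18 * l₁ * l₂)
      linarith
    have h2 : b ≤ l₁ * (l₂ * h) :=
      hbl.trans (mul_le_mul_of_nonneg_left hal (by linarith))
    have h3 : 18 * l₁ * l₂ * h ≤ M * h := mul_le_mul_of_nonneg_right h1 hh.le
    nlinarith
  obtain ⟨γ, hγ0, hγ1, hγn, hγl⟩ := geo_path hn a b ha (p - c) (p' - c) hp.1 hp'.1 hp.2 hp'.2
  set i₀ : Fin n := ⟨0, by omega⟩ with hi₀
  set e : E n := (3 / 2 * h) • EuclideanSpace.single i₀ (1 : ℝ) with he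
  have hen : ‖e‖ = 3 / 2 * h := by
    rw [he, norm_smul, PiLp.norm_single, norm_one, mul_one, Real.norm_eq_abs,
      abs_of_pos (by positivity)]
  have he0 : e i₀ = 3 / 2 * h := by
    rw [he]
    simp
  have hs : ∀ j : ℕ, j ≤ M → 0 ≤ (j : ℝ) / M ∧ (j : ℝ) / M ≤ 1 := by
    intro j hj
    refine ⟨by positivity, ?_⟩
    rw [div_le_one hM0]
    exact_mod_cast hj
  have hstep : ∀ j : ℕ, j + 1 ≤ M → ‖γ (((j + 1 : ℕ) : ℝ) / M) - γ ((j : ℝ) / M)‖ ≤ h / 2 := by
    intro j hj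
    have h1 := hs j (by omega)
    have h2 := hs (j + 1) hj
    refine (hγl _ _ h2.1 h2.2 h1.1 h1.2).trans ?_
    have h3 : ((j + 1 : ℕ) : ℝ) / M - (j : ℝ) / M = 1 / M := by
      push_cast
      ring
    rw [h3, abs_of_pos (by positivity)]
    rw [mul_one_div, div_le_iff₀ hM0]
    linarith
  refine ⟨fun k => if k % 2 = 0 then c + γ (((k / 2 : ℕ) : ℝ) / M) else
    c + γ (((k / 2 : ℕ) : ℝ) / M) + e, ?_, ?_, ?_⟩
  · simp [hγ0]
  · have h1 : 2 * M % 2 = 0 := by omega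
    have h2 : 2 * M / 2 = M := by omega
    simp only [h1, h2, if_true]
    rw [div_self hM0.ne', hγ1]
    abel
  · intro k hk
    rcases Nat.even_or_odd' k with ⟨j, hj | hj⟩
    · have e1 : k % 2 = 0 := by omega
      have e2 : k / 2 = j := by omega
      have e3 : (k + 1) % 2 ≠ 0 := by omega
      have e4 : (k + 1) / 2 = j := by omega
      have hjM : j ≤ M := by omega
      simp only [e1, e2, e3, e4, if_true, if_false]
      have h1 := hγn _ (hs j hjM).1 (hs j hjM).2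
      refine ⟨⟨?_, ?_⟩, Or.inr ⟨3 / 2 * h, by linarith, by linarith, ?_, i₀, ?_⟩⟩
      · rw [add_sub_cancel_left]; linarith
      · rw [add_sub_cancel_left]; linarith
      · intro i
        have h2 : (c + γ ((j : ℝ) / M) + e) i - (c + γ ((j : ℝ) / M)) i = e i := by
          rw [← coord_sub, add_sub_cancel_left]
        rw [h2]
        exact (abs_coord_le e i).trans hen.le
      · have h2 : (c + γ ((j : ℝ) / M) + e) i₀ - (c + γ ((j : ℝ) / M)) i₀ = e i₀ := by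
          rw [← coord_sub, add_sub_cancel_left]
        rw [h2, he0, abs_of_pos (by positivity)]
    · have e1 : k % 2 ≠ 0 := by omega
      have e2 : k / 2 = j := by omega
      have e3 : (k + 1) % 2 = 0 := by omega
      have e4 : (k + 1) / 2 = j + 1 := by omega
      have hjM : j + 1 ≤ M := by omega
      simp only [e1, e2, e3, e4, if_true, if_false]
      have h1 := hγn _ (hs j (by omega)).1 (hs j (by omega)).2
      have h5 : c + γ ((j : ℝ) / M) + e - c = γ ((j : ℝ) / M) + e := by abel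
      refine ⟨⟨?_, ?_⟩, Or.inr ?_⟩
      · rw [h5]
        have h6 : ‖γ ((j : ℝ) / M)‖ - ‖e‖ ≤ ‖γ ((j : ℝ) / M) + e‖ := by
          have := norm_sub_norm_le (γ ((j : ℝ) / M)) (-e)
          rwa [norm_neg, sub_neg_eq_add] at this
        rw [hen] at h6
        linarith
      · rw [h5]
        have h6 := norm_add_le (γ ((j : ℝ) / M)) e
        rw [hen] at h6
        linarith
      · have h7 := hstep j hjM
        have h8 : ∀ i, (c + γ (((j + 1 : ℕ) : ℝ) / M)) i - (c + γ ((j : ℝ) / M) + e) i =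
            (γ (((j + 1 : ℕ) : ℝ) / M) - γ ((j : ℝ) / M)) i - e i := by
          intro i
          show (c i + γ (((j + 1 : ℕ) : ℝ) / M) i) - (c i + γ ((j : ℝ) / M) i + e i) =
            (γ (((j + 1 : ℕ) : ℝ) / M) i - γ ((j : ℝ) / M) i) - e i
          ring
        have h9 := geo_sup i₀ ((γ (((j + 1 : ℕ) : ℝ) / M) - γ ((j : ℝ) / M)) - e) h ?_ ?_
        · obtain ⟨δ, hδ1, hδ2, hδ3, i, hδ4⟩ := h9
          refine ⟨δ, hδ1, hδ2, fun i => ?_, i, ?_⟩
          · rw [h8 i, ← coord_sub]; exact hδ3 i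
          · rw [h8 i, ← coord_sub]; exact hδ4
        · intro i
          rw [coord_sub]
          have h10 := (abs_coord_le (γ (((j + 1 : ℕ) : ℝ) / M) - γ ((j : ℝ) / M)) i).trans h7
          have h11 := (abs_coord_le e i).trans hen.le
          have h12 := abs_sub ((γ (((j + 1 : ℕ) : ℝ) / M) - γ ((j : ℝ) / M)) i) (e i)
          linarith
        · rw [coord_sub, he0]
          have h10 := (abs_coord_le (γ (((j + 1 : ℕ) : ℝ) / M) - γ ((j : ℝ) / M)) i₀).trans h7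
          have h11 := abs_le.1 h10
          rw [le_abs]
          right
          linarith

end Pool.Agent.SKQ.H25
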