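import Pool.Agent.SKQ.Stmts

/-!
# SKQ, row LEB: Lebesgue points in `L^n`, averages over cubes
-/

set_option autoImplicit false

namespace Pool.Agent.SKQ.H25

open Metric Set Filter Topology MeasureTheory
open scoped ENNReal RealInnerProductSpace
open Helper22QC Pool.Agent.SKQ

theorem add_pow_le_two {a b : ℝ} (ha : 0 ≤ a) (hb : 0 ≤ b) (n : ℕ) :
    (a + b) ^ n ≤ 2 ^ n * (a ^ n + b ^ n) := by
  have h1 : 0 ≤ a ^ n := pow_nonneg ha n
  have h2 : 0 ≤ b ^ n := pow_nonneg hb n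
  rcases le_total a b with h | h
  · calc (a + b) ^ n ≤ (2 * b) ^ n := pow_le_pow_left₀ (by linarith) (by linarith) n
      _ = 2 ^ n * b ^ n := mul_pow _ _ _
      _ ≤ 2 ^ n * (a ^ n + b ^ n) := mul_le_mul_of_nonneg_left (by linarith) (by positivity)
  · calc (a + b) ^ n ≤ (2 * a) ^ n := pow_le_pow_left₀ (by linarith) (by linarith) n
      _ = 2 ^ n * a ^ n := mul_pow _ _ _
      _ ≤ 2 ^ n * (a ^ n + b ^ n) := mul_le_mul_of_nonneg_left (by linarith) (by positivity)

theorem cube_sub {n : ℕ} (y : E n) {r : ℝ} (hr : 0 ≤ r) : cube y r ⊆ closedBall y (√n * r) := by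
  intro z hz
  rw [mem_closedBall, dist_eq_norm, EuclideanSpace.norm_eq]
  have h1 : ∑ i, ‖(z - y) i‖ ^ 2 ≤ ∑ _i : Fin n, r ^ 2 := by
    refine Finset.sum_le_sum fun i _ => ?_
    have h2 : ‖(z - y) i‖ ≤ r := hz i
    exact pow_le_pow_left₀ (norm_nonneg _) h2 2
  rw [Finset.sum_const, Finset.card_univ, Fintype.card_fin, nsmul_eq_mul] at h1
  calc √(∑ i, ‖(z - y) i‖ ^ 2) ≤ √(n * r ^ 2) := Real.sqrt_le_sqrt h1
    _ = √n * r := by rw [Real.sqrt_mul (by positivity), Real.sqrt_sq hr]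

theorem cube_meas {n : ℕ} (y : E n) (r : ℝ) : MeasurableSet (cube y r) := by
  have h : cube y r = ⋂ i, {z : E n | |z i - y i| ≤ r} := by
    ext z
    simp [cube]
  rw [h]
  refine MeasurableSet.iInter fun i => ?_
  refine (isClosed_le ?_ continuous_const).measurableSet
  exact ((EuclideanSpace.proj i : E n →L[ℝ] ℝ).continuous.sub continuous_const).abs

theorem int_sub {n : ℕ} {F : E n → Mt n} {B : Set (E n)} (hB : IsCompact B)
    (hm : AEStronglyMeasurable F (volume.restrict B))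
    (hi : IntegrableOn (fun x => ‖F x‖ ^ n) B) (q : Mt n) :
    IntegrableOn (fun x => ‖F x - q‖ ^ n) B := by
  have hc : IntegrableOn (fun _ : E n => ‖q‖ ^ n) B :=
    integrableOn_const hB.measure_lt_top.ne
  refine Integrable.mono' ((hi.add hc).const_mul (2 ^ n))
    ((hm.sub aestronglyMeasurable_const).norm.pow n) (Eventually.of_forall fun x => ?_)
  rw [norm_pow, norm_norm]
  refine (pow_le_pow_left₀ (norm_nonneg _) (norm_sub_le _ _) n).trans ?_
  exact add_pow_le_two (norm_nonneg _) (norm_nonneg _) n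

theorem leb_loc {n : ℕ} (hn : 1 ≤ n) {F : E n → Mt n} {x0 : E n} {ρ : ℝ}
    (hm : AEStronglyMeasurable F (volume.restrict (closedBall x0 ρ)))
    (hi : IntegrableOn (fun x => ‖F x‖ ^ n) (closedBall x0 ρ)) :
    ∀ᵐ y, y ∈ ball x0 ρ →
      Tendsto (fun r : ℝ => (r ^ n)⁻¹ * ∫ x in cube y r, ‖F x - F y‖ ^ n) (𝓝[>] 0) (𝓝 0) := by
  obtain ⟨B, hB⟩ : ∃ B, B = closedBall x0 ρ := ⟨_, rfl⟩
  rw [← hB] at hm hi
  have hBc : IsCompact B := by rw [hB]; exact isCompact_closedBall _ _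
  have hBm : MeasurableSet B := by rw [hB]; exact measurableSet_closedBall
  have hint := int_sub hBc hm hi
  have hn0 : 0 < √(n : ℝ) := Real.sqrt_pos.2 (by exact_mod_cast hn)
  have hδ : Tendsto (fun r : ℝ => √(n : ℝ) * r) (𝓝[>] 0) (𝓝[>] 0) := by
    rw [tendsto_nhdsWithin_iff]
    refine ⟨?_, ?_⟩
    · have h1 : Tendsto (fun r : ℝ => √(n : ℝ) * r) (𝓝 0) (𝓝 (√(n : ℝ) * 0)) :=
        (continuous_const.mul continuous_id).tendsto 0
      rw [mul_zero] at h1
      exact h1.mono_left nhdsWithin_le_nhds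
    · filter_upwards [self_mem_nhdsWithin] with r hr
      exact mul_pos hn0 hr
  obtain ⟨q, hq⟩ : ∃ q : ℕ → Mt n, DenseRange q :=
    ⟨TopologicalSpace.denseSeq (Mt n), TopologicalSpace.denseRange_denseSeq _⟩
  have h1 : ∀ k, ∀ᵐ y, Tendsto (fun r : ℝ => ⨍ x in closedBall y (√(n : ℝ) * r),
      B.indicator (fun x => ‖F x - q k‖ ^ n) x) (𝓝[>] 0)
      (𝓝 (B.indicator (fun x => ‖F x - q k‖ ^ n) y)) := by
    intro k
    have hf : Integrable (B.indicator (fun x => ‖F x - q k‖ ^ n)) :=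
      (integrable_indicator_iff hBm).2 (hint (q k))
    filter_upwards [IsUnifLocDoublingMeasure.ae_tendsto_average (volume : Measure (E n))
      hf.locallyIntegrable 0] with y hy
    exact hy (fun _ => y) _ hδ (Eventually.of_forall fun r => mem_closedBall_self (by simp))
  filter_upwards [ae_all_iff.2 h1] with y hy hyB
  have hyB' : y ∈ B := by rw [hB]; exact ball_subset_closedBall hyB
  obtain ⟨v1, hv1⟩ : ∃ v1, v1 = (volume : Measure (E n)).real (closedBall 0 1) := ⟨_, rfl⟩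
  have hv0 : 0 ≤ v1 := by rw [hv1]; exact measureReal_nonneg
  obtain ⟨c, hc⟩ : ∃ c, c = 2 ^ n * (√(n : ℝ) ^ n * v1) := ⟨_, rfl⟩
  have hc0 : 0 ≤ c := by rw [hc]; positivity
  rw [Metric.tendsto_nhds]
  intro θ hθ
  obtain ⟨η, hηd⟩ : ∃ η, η = min 1 (θ / (2 * c + 1)) := ⟨_, rfl⟩
  have hη : 0 < η := by rw [hηd]; positivity
  obtain ⟨k, hk⟩ : ∃ k, dist (F y) (q k) < η := hq.exists_dist_lt (F y) hη
  rw [dist_eq_norm] at hk
  have hk2 : ‖F y - q k‖ ^ n < η := by
    have h2 : ‖F y - q k‖ ≤ 1 := hk.le.trans (by rw [hηd]; exact min_le_left _ _)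
    calc ‖F y - q k‖ ^ n ≤ ‖F y - q k‖ ^ 1 := pow_le_pow_of_le_one (norm_nonneg _) h2 hn
      _ = ‖F y - q k‖ := pow_one _
      _ < η := hk
  have h2 := hy k
  rw [indicator_of_mem hyB'] at h2
  have h3 := h2.eventually (gt_mem_nhds hk2)
  have h4 : ∀ᶠ r : ℝ in 𝓝[>] 0, r < (ρ - dist y x0) / √(n : ℝ) := by
    have h5 : 0 < (ρ - dist y x0) / √(n : ℝ) := div_pos (by
      have := mem_ball.1 hyB
      linarith) hn0
    exact nhdsWithin_le_nhds (gt_mem_nhds h5)
  filter_upwards [h3, h4, self_mem_nhdsWithin] with r hr1 hr2 hr0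
  have hr0' : 0 < r := hr0
  obtain ⟨CB, hCB⟩ : ∃ CB, CB = closedBall y (√(n : ℝ) * r) := ⟨_, rfl⟩
  rw [← hCB] at hr1
  have hsub : CB ⊆ B := by
    rw [hCB, hB]
    refine closedBall_subset_closedBall' ?_
    rw [lt_div_iff₀ hn0] at hr2
    linarith
  have hcs : cube y r ⊆ CB := by rw [hCB]; exact cube_sub y hr0'.le
  have hvol : (volume : Measure (E n)).real CB = (√(n : ℝ) * r) ^ n * v1 := by
    rw [hCB, Measure.addHaar_real_closedBall' _ _ (by positivity), finrank_euclideanSpace_fin, hv1]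
  have hCBm : MeasurableSet CB := by rw [hCB]; exact measurableSet_closedBall
  have hCBf : (volume : Measure (E n)) CB ≠ ⊤ := by
    rw [hCB]
    exact (isCompact_closedBall _ _).measure_lt_top.ne
  have hvpos : 0 < (volume : Measure (E n)).real CB := by
    rw [hCB]
    exact ENNReal.toReal_pos (measure_closedBall_pos volume y (by positivity)).ne'
      (isCompact_closedBall _ _).measure_lt_top.ne
  -- the integral over the ball
  have hI1 : ∫ x in CB, ‖F x - q k‖ ^ n =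
      (volume : Measure (E n)).real CB * ⨍ x in CB, B.indicator (fun x => ‖F x - q k‖ ^ n) x := by
    rw [setAverage_eq, smul_eq_mul, mul_inv_cancel_left₀ hvpos.ne']
    refine setIntegral_congr_fun hCBm fun x hx => ?_
    show ‖F x - q k‖ ^ n = B.indicator (fun x => ‖F x - q k‖ ^ n) x
    rw [indicator_of_mem (hsub hx)]
  have hiq : IntegrableOn (fun x => ‖F x - q k‖ ^ n) CB := (hint (q k)).mono_set hsub
  have hic : IntegrableOn (fun _ : E n => ‖F y - q k‖ ^ n) CB := integrableOn_const hCBf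
  have hI2 : ∫ x in cube y r, ‖F x - F y‖ ^ n ≤
      ∫ x in CB, 2 ^ n * (‖F x - q k‖ ^ n + ‖F y - q k‖ ^ n) := by
    have hig : IntegrableOn (fun x => 2 ^ n * (‖F x - q k‖ ^ n + ‖F y - q k‖ ^ n)) CB :=
      (hiq.add hic).const_mul _
    have a1 : ∫ x in cube y r, ‖F x - F y‖ ^ n ≤
        ∫ x in cube y r, 2 ^ n * (‖F x - q k‖ ^ n + ‖F y - q k‖ ^ n) := by
      refine setIntegral_mono_on ((hint (F y)).mono_set (hcs.trans hsub)) (hig.mono_set hcs)
        (cube_meas y r) fun x _ => ?_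
      have a2 : ‖F x - F y‖ ≤ ‖F x - q k‖ + ‖F y - q k‖ := by
        have : F x - F y = (F x - q k) - (F y - q k) := by abel
        rw [this]
        exact norm_sub_le _ _
      exact (pow_le_pow_left₀ (norm_nonneg _) a2 n).trans
        (add_pow_le_two (norm_nonneg _) (norm_nonneg _) n)
    refine a1.trans (setIntegral_mono_set hig ?_ hcs.eventuallyLE)
    exact Eventually.of_forall fun x => by positivity
  have hI3 : ∫ x in CB, 2 ^ n * (‖F x - q k‖ ^ n + ‖F y - q k‖ ^ n) =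
      2 ^ n * ((volume : Measure (E n)).real CB *
        (⨍ x in CB, B.indicator (fun x => ‖F x - q k‖ ^ n) x) +
        (volume : Measure (E n)).real CB * ‖F y - q k‖ ^ n) := by
    rw [integral_const_mul, integral_add hiq hic, hI1, setIntegral_const, smul_eq_mul]
  have hnn : 0 ≤ (r ^ n)⁻¹ * ∫ x in cube y r, ‖F x - F y‖ ^ n :=
    mul_nonneg (by positivity) (integral_nonneg fun x => by positivity)
  rw [Real.dist_eq, sub_zero, abs_of_nonneg hnn]
  obtain ⟨A, hA⟩ : ∃ A, A = ⨍ x in CB, B.indicator (fun x => ‖F x - q k‖ ^ n) x := ⟨_, rfl⟩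
  rw [← hA] at hr1 hI3
  have hfin : (r ^ n)⁻¹ * ∫ x in cube y r, ‖F x - F y‖ ^ n ≤ c * (A + ‖F y - q k‖ ^ n) := by
    calc (r ^ n)⁻¹ * ∫ x in cube y r, ‖F x - F y‖ ^ n
        ≤ (r ^ n)⁻¹ * (2 ^ n * ((volume : Measure (E n)).real CB * A +
          (volume : Measure (E n)).real CB * ‖F y - q k‖ ^ n)) := by
          refine mul_le_mul_of_nonneg_left ?_ (by positivity)
          rw [← hI3]
          exact hI2
      _ = c * (A + ‖F y - q k‖ ^ n) := by
          rw [hvol, hc, mul_pow]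
          have : r ^ n ≠ 0 := by positivity
          field_simp
  refine hfin.trans_lt ?_
  have h6 : c * (A + ‖F y - q k‖ ^ n) ≤ c * (η + η) :=
    mul_le_mul_of_nonneg_left (by linarith) hc0
  have h7 : η ≤ θ / (2 * c + 1) := by rw [hηd]; exact min_le_right _ _
  rw [le_div_iff₀ (by positivity)] at h7
  nlinarith

theorem leb : LEBStmt := by
  intro n Ω F hn hΩ hF
  rw [ae_iff]
  refine measure_null_of_locally_null _ fun x0 hx0 => ?_
  have hx : x0 ∈ Ω := by
    by_contra h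
    exact hx0 fun h' => absurd h' h
  obtain ⟨ρ, hρ, hsub⟩ := Metric.nhds_basis_closedBall.mem_iff.1 (hΩ.mem_nhds hx)
  obtain ⟨hm, hi⟩ := hF _ hsub (isCompact_closedBall x0 ρ)
  have h1 := leb_loc hn hm hi
  rw [ae_iff] at h1
  refine ⟨_, ?_, h1⟩
  rw [mem_nhdsWithin]
  refine ⟨ball x0 ρ, isOpen_ball, mem_ball_self hρ, ?_⟩
  rintro y ⟨hy1, hy2⟩
  intro h
  exact hy2 fun _ => h hy1

end Pool.Agent.SKQ.H25
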